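import Pool.Agent.Lib_MP_f2f003_ins.Lim

/-!
# MP_f2f003_pr, Q1: the answer is no, for every `K ≥ 1` and with probability tending to one along a subsequence
-/

set_option autoImplicit false

namespace Pool.Agent.Results.MP_f2f003_pr.FailsForEveryK

open MeasureTheory Filter Pool.Agent.HitW
open scoped ENNReal Topology

variable {Ω : Type*} [MeasurableSpace Ω]

private theorem outer_add {α : Type*} (p : PMF α) {E F : Set α} (h : Disjoint E F) :
    p.toOuterMeasure E + p.toOuterMeasure F ≤ 1 := by
  rw [PMF.toOuterMeasure_apply, PMF.toOuterMeasure_apply, ← ENNReal.tsum_add, ← p.tsum_coe]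
  refine ENNReal.tsum_le_tsum fun x => ?_
  by_cases hE : x ∈ E
  · have hF : x ∉ F := Set.disjoint_left.1 h hE
    simp [hE, hF]
  · by_cases hF : x ∈ F
    · simp [hE, hF]
    · simp [hE, hF]

private theorem prob_add (μ : Measure Ω) [IsProbabilityMeasure μ] (W : Ω → Ω → ℝ) (n : ℕ)
    {E F : Set (List (Sym2 (Fin n)))} (h : Disjoint E F) : prob μ W n E + prob μ W n F ≤ 1 := by
  unfold prob
  refine (le_lintegral_add _ _).trans ?_
  calc _ ≤ ∫⁻ _ : Fin n → Ω, 1 ∂(Measure.pi fun _ => μ) := lintegral_mono fun x => outer_add _ h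
    _ = 1 := by simp

/-- Let `(Ω, μ)` be a probability space with measurable sets of arbitrarily small positive measure. There are a symmetric
measurable `W` with `0 < W ≤ 1` everywhere, which is therefore a connected graphon, and `n k → ∞` such that for every
`K ≥ 1` in the `W`-edge-incremental process of order `n k` the hitting time of minimum degree at least `K` is smaller
than the hitting time of `K`-connectivity with probability tending to `1`, and the two are equal with probability tending
to `0`. The unit interval with Lebesgue measure is such a probability space. -/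
theorem result :
    (∀ (Ω : Type*) [MeasurableSpace Ω] (μ : Measure Ω) [IsProbabilityMeasure μ],
      (∀ ε : ℝ≥0∞, 0 < ε → ∃ A, MeasurableSet A ∧ 0 < μ A ∧ μ A < ε) →
      ∃ W : Ω → Ω → ℝ, Measurable (Function.uncurry W) ∧ (∀ a b, W a b = W b a) ∧
        (∀ a b, 0 < W a b ∧ W a b ≤ 1) ∧
        (∀ A : Set Ω, MeasurableSet A → 0 < μ A → μ A < 1 → 0 < ∫ p in A ×ˢ Aᶜ, W p.1 p.2 ∂(μ.prod μ)) ∧
        ∃ n : ℕ → ℕ, Tendsto n atTop atTop ∧ ∀ K : ℕ, 1 ≤ K →
          Tendsto (fun k => prob μ W (n k) {l | hit (MinDeg K) l < hit (KConn K) l}) atTop (𝓝 1) ∧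
          Tendsto (fun k => prob μ W (n k) {l | hit (KConn K) l = hit (MinDeg K) l}) atTop (𝓝 0)) ∧
    ∀ ε : ℝ≥0∞, 0 < ε → ∃ A : Set unitInterval, MeasurableSet A ∧ 0 < volume A ∧ volume A < ε := by
  refine ⟨fun Ω _ μ _ h => ?_, unit_small⟩
  obtain ⟨W, h1, h2, h3, h4, n, h5, h6⟩ := Pool.Agent.HitW.main μ h
  refine ⟨W, h1, h2, h3, h4, n, h5, fun K hK => ⟨h6 K hK, ?_⟩⟩
  have e1 := ENNReal.Tendsto.sub (tendsto_const_nhds (x := (1 : ℝ≥0∞))) (h6 K hK) (Or.inl ENNReal.one_ne_top)
  rw [tsub_self] at e1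
  refine tendsto_of_tendsto_of_tendsto_of_le_of_le tendsto_const_nhds e1 (fun k => bot_le) fun k => ?_
  have hdis : Disjoint {l : List (Sym2 (Fin (n k))) | hit (KConn K) l = hit (MinDeg K) l}
      {l | hit (MinDeg K) l < hit (KConn K) l} := by
    rw [Set.disjoint_left]
    intro l hl hl'
    simp only [Set.mem_setOf_eq] at hl hl'
    omega
  exact ENNReal.le_sub_of_add_le_right (ne_top_of_le_ne_top ENNReal.one_ne_top
    (le_trans le_add_self (prob_add μ W (n k) hdis))) (prob_add μ W (n k) hdis)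

end Pool.Agent.Results.MP_f2f003_pr.FailsForEveryK
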